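import Mathlib

/-!
`su(p,1)`, `p ≥ 2`, has elements which are not brackets.

If `Z = [A,B]` is a commutator of matrices then `tr (Z A) = 0` and `tr (Z A²) = 0`.
Let `Z = i diag (1,…,1,-p)`, and `A ∈ su(p,1)` with blocks `D` (skew-hermitian), `v`, `v*`, `a`.
The first identity gives `a = 0` and the second one gives
`-‖D‖² + 2 ‖v‖² = tr A² = (p+1) (A²)_{p+1,p+1} = (p+1) ‖v‖²`,
i.e. `‖D‖² + (p-1) ‖v‖² = 0`.  So `A = 0` if `p ≥ 2`, and `Z = 0`, a contradiction.
-/

set_option autoImplicit false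

open Matrix

noncomputable section

namespace Pool.Agent.Results.MP_61cc98_al.NotBracket

attribute [local instance 100] LieRing.ofAssociativeRing

/-- The diagonal matrix `diag (1,…,1,-1)` of the hermitian form `|z₁|² + … + |z_p|² - |z_{p+1}|²`
of signature `(p,1)`; the index set `Fin p ⊕ Unit` has `p + 1` elements. -/
def J (p : ℕ) : Matrix (Fin p ⊕ Unit) (Fin p ⊕ Unit) ℂ :=
  Matrix.diagonal (Sum.elim (fun _ => 1) (fun _ => -1))

/-- The real Lie algebra `su(p,1)`: complex square matrices `A` of size `p + 1` with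
`A* J + J A = 0` and trace zero, with the commutator `A B - B A` as the bracket. -/
def su (p : ℕ) : LieSubalgebra ℝ (Matrix (Fin p ⊕ Unit) (Fin p ⊕ Unit) ℂ) where
  carrier := {A | Aᴴ * J p + J p * A = 0 ∧ A.trace = 0}
  add_mem' := by
    rintro A B ⟨hA, hA'⟩ ⟨hB, hB'⟩
    refine ⟨?_, by rw [trace_add, hA', hB', add_zero]⟩
    rw [conjTranspose_add, add_mul, mul_add]
    have : Aᴴ * J p + Bᴴ * J p + (J p * A + J p * B) =
        (Aᴴ * J p + J p * A) + (Bᴴ * J p + J p * B) := by abel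
    rw [this, hA, hB, add_zero]
  zero_mem' := ⟨by simp, by simp⟩
  smul_mem' := by
    rintro c A ⟨hA, hA'⟩
    refine ⟨?_, by rw [trace_smul, hA', smul_zero]⟩
    rw [conjTranspose_smul, star_trivial, smul_mul_assoc, mul_smul_comm, ← smul_add, hA, smul_zero]
  lie_mem' := by
    rintro A B ⟨hA, hA'⟩ ⟨hB, hB'⟩
    have eA : Aᴴ * J p = -(J p * A) := eq_neg_of_add_eq_zero_left hA
    have eB : Bᴴ * J p = -(J p * B) := eq_neg_of_add_eq_zero_left hB
    refine ⟨?_, ?_⟩
    · rw [Ring.lie_def, conjTranspose_sub, conjTranspose_mul, conjTranspose_mul, sub_mul, mul_assoc,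
        mul_assoc, eA, eB, mul_neg, mul_neg, ← mul_assoc, ← mul_assoc, eA, eB]
      noncomm_ring
    · rw [Ring.lie_def, trace_sub, trace_mul_comm, sub_self]

theorem mem_su {p : ℕ} {A : Matrix (Fin p ⊕ Unit) (Fin p ⊕ Unit) ℂ} :
    A ∈ su p ↔ Aᴴ * J p + J p * A = 0 ∧ A.trace = 0 := Iff.rfl

/-- entries of elements of `su(p,1)` -/
theorem entry {p : ℕ} {A : Matrix (Fin p ⊕ Unit) (Fin p ⊕ Unit) ℂ}
    (hA : Aᴴ * J p + J p * A = 0) :
    (∀ i j, A (Sum.inl i) (Sum.inl j) = -star (A (Sum.inl j) (Sum.inl i))) ∧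
    (∀ i, A (Sum.inr ()) (Sum.inl i) = star (A (Sum.inl i) (Sum.inr ()))) := by
  have h : ∀ k l, star (A l k) * (Sum.elim (fun _ => 1) (fun _ => -1) : Fin p ⊕ Unit → ℂ) l +
      (Sum.elim (fun _ => 1) (fun _ => -1) : Fin p ⊕ Unit → ℂ) k * A k l = 0 := by
    intro k l
    have := congrFun (congrFun hA k) l
    rw [Matrix.add_apply, J, mul_diagonal, diagonal_mul, conjTranspose_apply] at this
    exact this
  constructor
  · intro i j
    have := h (Sum.inl i) (Sum.inl j)
    simp only [Sum.elim_inl, mul_one, one_mul] at this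
    exact eq_neg_of_add_eq_zero_right this
  · intro i
    have := h (Sum.inr ()) (Sum.inl i)
    simp only [Sum.elim_inl, Sum.elim_inr, mul_one, neg_mul, one_mul] at this
    exact (eq_of_sub_eq_zero (by rw [sub_eq_add_neg]; exact this)).symm

/-- the matrix `i diag (1,…,1,-p)` -/
def Z (p : ℕ) : Matrix (Fin p ⊕ Unit) (Fin p ⊕ Unit) ℂ :=
  Matrix.diagonal (Sum.elim (fun _ => Complex.I) (fun _ => -(p : ℂ) * Complex.I))

theorem Z_mem (p : ℕ) : Z p ∈ su p := by
  rw [mem_su]
  constructor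
  · rw [Z, J, diagonal_conjTranspose, diagonal_mul_diagonal, diagonal_mul_diagonal, diagonal_add,
      diagonal_eq_zero]
    funext k
    rcases k with k | k
    · simp
    · simp
  · rw [Z, trace_diagonal, Fintype.sum_sum_type]
    simp

theorem trace_Z_mul (p : ℕ) (M : Matrix (Fin p ⊕ Unit) (Fin p ⊕ Unit) ℂ) :
    (Z p * M).trace = Complex.I * (M.trace - ((p : ℂ) + 1) * M (Sum.inr ()) (Sum.inr ())) := by
  unfold Matrix.trace
  rw [Fintype.sum_sum_type, Fintype.sum_sum_type]
  simp only [diag_apply, Z, diagonal_mul, Sum.elim_inl, Sum.elim_inr, Finset.univ_unique,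
    Finset.sum_singleton, PUnit.default_eq_unit]
  rw [← Finset.mul_sum]
  ring

theorem not_bracket (p : ℕ) (hp : 2 ≤ p) (A B : Matrix (Fin p ⊕ Unit) (Fin p ⊕ Unit) ℂ)
    (hA : A ∈ su p) (h : A * B - B * A = Z p) : False := by
  obtain ⟨hA1, hA2⟩ := mem_su.1 hA
  obtain ⟨e1, e2⟩ := entry hA1
  have t1 : (Z p * A).trace = 0 := by
    rw [← h, sub_mul, trace_sub, mul_assoc B A A, trace_mul_comm B (A * A), mul_assoc A B A,
      trace_mul_comm A (B * A), mul_assoc B A A, trace_mul_comm B (A * A), sub_self]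
  have t2 : (Z p * (A * A)).trace = 0 := by
    rw [← h, sub_mul, trace_sub]
    have k1 : (A * B * (A * A)).trace = (B * (A * (A * A))).trace := by
      rw [mul_assoc A B (A * A), trace_mul_comm A (B * (A * A))]
      congr 1
      simp only [mul_assoc]
    have k2 : (B * A * (A * A)).trace = (B * (A * (A * A))).trace := by
      rw [mul_assoc]
    rw [k1, k2, sub_self]
  have hp1 : ((p : ℂ) + 1) ≠ 0 := by exact_mod_cast (Nat.succ_ne_zero p)
  -- the last diagonal entry vanishes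
  have hrr : A (Sum.inr ()) (Sum.inr ()) = 0 := by
    rw [trace_Z_mul, hA2, zero_sub, mul_neg, neg_eq_zero] at t1
    rcases mul_eq_zero.1 t1 with h0 | h0
    · exact absurd h0 Complex.I_ne_zero
    · exact (mul_eq_zero.1 h0).resolve_left hp1
  rw [trace_Z_mul] at t2
  have t3 : (A * A).trace = ((p : ℂ) + 1) * (A * A) (Sum.inr ()) (Sum.inr ()) := by
    rcases mul_eq_zero.1 t2 with h0 | h0
    · exact absurd h0 Complex.I_ne_zero
    · exact sub_eq_zero.1 h0
  have s1 : (A * A) (Sum.inr ()) (Sum.inr ()) = ((∑ i, ‖A (Sum.inl i) (Sum.inr ())‖ ^ 2 : ℝ) : ℂ) := by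
    rw [mul_apply, Fintype.sum_sum_type]
    simp only [Finset.univ_unique, Finset.sum_singleton, PUnit.default_eq_unit, hrr, mul_zero,
      add_zero]
    push_cast
    refine Finset.sum_congr rfl fun i _ => ?_
    rw [e2]
    exact Complex.conj_mul' _
  have s2 : (A * A).trace = ((-(∑ i, ∑ j, ‖A (Sum.inl i) (Sum.inl j)‖ ^ 2) +
      2 * (∑ i, ‖A (Sum.inl i) (Sum.inr ())‖ ^ 2) : ℝ) : ℂ) := by
    have s3 : (A * A).trace = (∑ i, (A * A) (Sum.inl i) (Sum.inl i)) + (A * A) (Sum.inr ()) (Sum.inr ()) := by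
      unfold Matrix.trace
      rw [Fintype.sum_sum_type]
      simp
    have s4 : ∀ i, (A * A) (Sum.inl i) (Sum.inl i) = ((-(∑ j, ‖A (Sum.inl i) (Sum.inl j)‖ ^ 2) +
        ‖A (Sum.inl i) (Sum.inr ())‖ ^ 2 : ℝ) : ℂ) := by
      intro i
      rw [mul_apply, Fintype.sum_sum_type]
      simp only [Finset.univ_unique, Finset.sum_singleton, PUnit.default_eq_unit]
      push_cast
      rw [← Finset.sum_neg_distrib]
      congr 1
      · refine Finset.sum_congr rfl fun j _ => ?_
        rw [e1 j i, mul_neg]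
        congr 1
        exact Complex.mul_conj' _
      · rw [e2]
        exact Complex.mul_conj' _
    rw [s3, s1]
    simp only [s4]
    push_cast
    rw [Finset.sum_add_distrib, Finset.sum_neg_distrib]
    ring
  rw [s1, s2] at t3
  have t4 : -(∑ i, ∑ j, ‖A (Sum.inl i) (Sum.inl j)‖ ^ 2) + 2 * (∑ i, ‖A (Sum.inl i) (Sum.inr ())‖ ^ 2) =
      ((p : ℝ) + 1) * (∑ i, ‖A (Sum.inl i) (Sum.inr ())‖ ^ 2) := by exact_mod_cast t3
  have n1 : 0 ≤ ∑ i, ∑ j, ‖A (Sum.inl i) (Sum.inl j)‖ ^ 2 :=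
    Finset.sum_nonneg fun i _ => Finset.sum_nonneg fun j _ => by positivity
  have n2 : 0 ≤ ∑ i, ‖A (Sum.inl i) (Sum.inr ())‖ ^ 2 := Finset.sum_nonneg fun i _ => by positivity
  have hp2 : (2 : ℝ) ≤ p := by exact_mod_cast hp
  have z2 : ∑ i, ‖A (Sum.inl i) (Sum.inr ())‖ ^ 2 = 0 := by nlinarith
  have z1 : ∑ i, ∑ j, ‖A (Sum.inl i) (Sum.inl j)‖ ^ 2 = 0 := by rw [z2] at t4; linarith
  have y2 : ∀ i, A (Sum.inl i) (Sum.inr ()) = 0 := by
    intro i
    have := (Finset.sum_eq_zero_iff_of_nonneg (fun i _ => by positivity)).1 z2 i (Finset.mem_univ i)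
    simpa using this
  have y1 : ∀ i j, A (Sum.inl i) (Sum.inl j) = 0 := by
    intro i j
    have h1 := (Finset.sum_eq_zero_iff_of_nonneg
      (fun i _ => Finset.sum_nonneg fun j _ => by positivity)).1 z1 i (Finset.mem_univ i)
    have h2 := (Finset.sum_eq_zero_iff_of_nonneg (fun i _ => by positivity)).1 h1 j (Finset.mem_univ j)
    simpa using h2
  have hA0 : A = 0 := by
    ext k l
    rcases k with k | k <;> rcases l with l | l
    · exact y1 k l
    · exact y2 k
    · rw [show k = () from rfl, e2, y2, star_zero]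
      rfl
    · exact hrr
  rw [hA0, zero_mul, mul_zero, sub_zero] at h
  have h0 := congrFun (congrFun h (Sum.inl ⟨0, by omega⟩)) (Sum.inl ⟨0, by omega⟩)
  rw [Z, diagonal_apply_eq] at h0
  simp only [Matrix.zero_apply, Sum.elim_inl] at h0
  exact Complex.I_ne_zero h0.symm

/-! ### semisimplicity -/

theorem J_conj (p : ℕ) : (J p)ᴴ = J p := by
  rw [J, diagonal_conjTranspose]
  congr 1
  funext k
  rcases k with k | k <;> simp

theorem J_sq (p : ℕ) : J p * J p = 1 := by
  rw [J, diagonal_mul_diagonal, ← diagonal_one]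
  congr 1
  funext k
  rcases k with k | k <;> simp

theorem conj_mem {p : ℕ} {A : Matrix (Fin p ⊕ Unit) (Fin p ⊕ Unit) ℂ} (hA : A ∈ su p) :
    Aᴴ ∈ su p := by
  obtain ⟨h1, h2⟩ := mem_su.1 hA
  rw [mem_su]
  constructor
  · have e1 : Aᴴ * J p = -(J p * A) := eq_neg_of_add_eq_zero_left h1
    have e2 : J p * Aᴴ = -(A * J p) := by
      have : J p * (Aᴴ * J p) * J p = J p * (-(J p * A)) * J p := by rw [e1]
      rw [← mul_assoc, mul_assoc _ (J p) (J p), J_sq, mul_one, mul_neg, ← mul_assoc, J_sq, one_mul,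
        neg_mul] at this
      exact this
    rw [conjTranspose_conjTranspose, e2, add_neg_cancel]
  · rw [trace_conjTranspose, h2, star_zero]

/-- the invariant form `Re tr (A B)` -/
def Φ (p : ℕ) : LinearMap.BilinForm ℝ (su p) :=
  LinearMap.mk₂ ℝ (fun A B : su p => ((A.1 * B.1).trace).re)
    (fun A A' B => by
      show (((A.1 + A'.1) * B.1).trace).re = _
      rw [add_mul, trace_add, Complex.add_re])
    (fun c A B => by
      show (((c • A.1) * B.1).trace).re = _
      rw [smul_mul_assoc, trace_smul, Complex.smul_re])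
    (fun A B B' => by
      show ((A.1 * (B.1 + B'.1)).trace).re = _
      rw [mul_add, trace_add, Complex.add_re])
    (fun c A B => by
      show ((A.1 * (c • B.1)).trace).re = _
      rw [mul_smul_comm, trace_smul, Complex.smul_re])

theorem Φ_apply {p : ℕ} (A B : su p) : Φ p A B = ((A.1 * B.1).trace).re := rfl

open scoped ComplexOrder in
theorem trace_conj_re {p : ℕ} (A : Matrix (Fin p ⊕ Unit) (Fin p ⊕ Unit) ℂ)
    (h : (A * Aᴴ).trace = 0) : A = 0 := trace_mul_conjTranspose_self_eq_zero_iff.1 h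

theorem trace_conj_real {p : ℕ} (A : Matrix (Fin p ⊕ Unit) (Fin p ⊕ Unit) ℂ)
    (h : ((A * Aᴴ).trace).re = 0) : A = 0 := by
  apply trace_conj_re
  apply Complex.ext h
  have h1 : star ((A * Aᴴ).trace) = (A * Aᴴ).trace := by
    rw [← trace_conjTranspose, conjTranspose_mul, conjTranspose_conjTranspose]
  exact Complex.conj_eq_iff_im.1 h1

theorem Φ_symm (p : ℕ) (A B : su p) : Φ p A B = Φ p B A := by
  rw [Φ_apply, Φ_apply, trace_mul_comm]

theorem Φ_refl (p : ℕ) : (Φ p).IsRefl := fun A B h => by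
  rw [Φ_symm]
  exact h

theorem Φ_nondeg (p : ℕ) : (Φ p).Nondegenerate := by
  have h : ∀ A : su p, (∀ B, Φ p A B = 0) → A = 0 := by
    intro A hA
    have h1 := hA ⟨A.1ᴴ, conj_mem A.2⟩
    rw [Φ_apply] at h1
    exact Subtype.ext (trace_conj_real _ h1)
  exact ⟨h, fun A hA => h A fun B => by rw [Φ_symm]; exact hA B⟩

theorem Φ_inv (p : ℕ) : (Φ p).lieInvariant (su p) := by
  intro x y z
  rw [Φ_apply, Φ_apply]
  show (((x.1 * y.1 - y.1 * x.1) * z.1).trace).re = -((y.1 * (x.1 * z.1 - z.1 * x.1)).trace).re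
  rw [sub_mul, mul_sub, trace_sub, trace_sub, Complex.sub_re, Complex.sub_re]
  have h1 : (x.1 * y.1 * z.1).trace = (y.1 * (z.1 * x.1)).trace := by
    rw [mul_assoc, trace_mul_comm, mul_assoc]
  rw [h1, mul_assoc]
  ring

/-- trace form on matrices -/
theorem tr_swap {p : ℕ} (Y M N : Matrix (Fin p ⊕ Unit) (Fin p ⊕ Unit) ℂ) :
    ((Y * M - M * Y) * Nᴴ).trace = (M * (Yᴴ * N - N * Yᴴ)ᴴ).trace := by
  rw [conjTranspose_sub, conjTranspose_mul, conjTranspose_mul, conjTranspose_conjTranspose, sub_mul,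
    mul_sub, trace_sub, trace_sub, mul_assoc Y M, trace_mul_comm Y, mul_assoc M Nᴴ Y, mul_assoc M Y Nᴴ]

/-- an abelian ideal commutes with everything -/
theorem abelian_central {p : ℕ} (I : LieIdeal ℝ (su p)) (hI : IsLieAbelian I) (A : su p) (hA : A ∈ I)
    (X : su p) : A.1 * X.1 - X.1 * A.1 = 0 := by
  have hab : ∀ B C : su p, B ∈ I → C ∈ I → B.1 * C.1 - C.1 * B.1 = 0 := by
    intro B C hB hC
    have h1 : ⁅(⟨B, hB⟩ : I), (⟨C, hC⟩ : I)⁆ = 0 := trivial_lie_zero _ _ _ _
    have h2 := congrArg (fun z : I => (z : su p).1) h1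
    exact h2
  have hmem : ∀ B C : su p, B ∈ I → ⁅B, C⁆ ∈ I := fun B C hB => lie_mem_left ℝ (su p) I B C hB
  let Ah : su p := ⟨A.1ᴴ, conj_mem A.2⟩
  -- B = [A, A*] = 0
  have hB : A.1 * A.1ᴴ - A.1ᴴ * A.1 = 0 := by
    have h1 := hab A ⁅A, Ah⁆ hA (hmem A Ah hA)
    have e : (⁅A, Ah⁆ : su p).1 = A.1 * A.1ᴴ - A.1ᴴ * A.1 := rfl
    rw [e] at h1
    apply trace_conj_re
    have h2 := tr_swap A.1 A.1ᴴ (A.1 * A.1ᴴ - A.1ᴴ * A.1)
    rw [h2]
    have h3 : A.1ᴴ * (A.1 * A.1ᴴ - A.1ᴴ * A.1) - (A.1 * A.1ᴴ - A.1ᴴ * A.1) * A.1ᴴ =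
        (A.1 * (A.1 * A.1ᴴ - A.1ᴴ * A.1) - (A.1 * A.1ᴴ - A.1ᴴ * A.1) * A.1)ᴴ * (-1) := by
      simp only [conjTranspose_sub, conjTranspose_mul, conjTranspose_conjTranspose]
      noncomm_ring
    rw [h3, h1]
    simp
  -- C = [A, X]
  have hC := hab A ⁅A, X⁆ hA (hmem A X hA)
  have e : (⁅A, X⁆ : su p).1 = A.1 * X.1 - X.1 * A.1 := rfl
  rw [e] at hC
  obtain ⟨C, hCdef⟩ : ∃ C, C = A.1 * X.1 - X.1 * A.1 := ⟨_, rfl⟩
  rw [← hCdef] at hC ⊢
  obtain ⟨D, hDdef⟩ : ∃ D, D = A.1ᴴ * C - C * A.1ᴴ := ⟨_, rfl⟩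
  have hD : D = 0 := by
    apply trace_conj_re
    have h2 := tr_swap A.1ᴴ C D
    rw [← hDdef, conjTranspose_conjTranspose] at h2
    rw [h2]
    have h3 : A.1 * D - D * A.1 = 0 := by
      have h4 : A.1 * D - D * A.1 = (A.1 * A.1ᴴ - A.1ᴴ * A.1) * C - C * (A.1 * A.1ᴴ - A.1ᴴ * A.1) +
          (A.1ᴴ * (A.1 * C - C * A.1) - (A.1 * C - C * A.1) * A.1ᴴ) := by
        rw [hDdef]
        noncomm_ring
      rw [h4, hB, hC]
      simp
    rw [h3]
    simp
  apply trace_conj_re
  have h5 := tr_swap A.1 X.1 C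
  rw [← hCdef, ← hDdef, hD] at h5
  rw [h5]
  simp

theorem center_trivial {p : ℕ} (A : su p) (h : ∀ X : su p, A.1 * X.1 - X.1 * A.1 = 0) :
    A = 0 := by
  obtain ⟨A, hA⟩ := A
  simp only at h
  -- off-diagonal entries vanish
  have hoff : ∀ k l, k ≠ l → A k l = 0 := by
    intro k l hkl
    let d : Fin p ⊕ Unit → ℂ := fun m => if m = k then Complex.I else if m = l then -Complex.I else 0
    have hd : Matrix.diagonal d ∈ su p := by
      rw [mem_su]
      constructor
      · rw [J, diagonal_conjTranspose, diagonal_mul_diagonal, diagonal_mul_diagonal, diagonal_add,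
          diagonal_eq_zero]
        funext m
        simp only [d, Pi.star_apply, Pi.zero_apply]
        split_ifs <;> simp [mul_comm]
      · rw [trace_diagonal]
        have : ∀ m, d m = (if m = k then Complex.I else 0) + (if m = l then -Complex.I else 0) := by
          intro m
          simp only [d]
          by_cases h1 : m = k
          · have h2 : ¬ m = l := fun h2 => hkl (h1.symm.trans h2)
            simp [h1, h2, hkl]
          · simp [h1]
        simp only [this]
        rw [Finset.sum_add_distrib]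
        simp
    have h1 := congrFun (congrFun (h ⟨_, hd⟩) k) l
    rw [Matrix.sub_apply, mul_diagonal, diagonal_mul] at h1
    simp only [d, if_true, Matrix.zero_apply] at h1
    rw [if_neg (Ne.symm hkl)] at h1
    have h2 : A k l * (-2 * Complex.I) = 0 := by linear_combination h1
    exact (mul_eq_zero.1 h2).resolve_right (by simp)
  -- diagonal entries are equal
  have hdiag : ∀ i : Fin p, A (Sum.inl i) (Sum.inl i) = A (Sum.inr ()) (Sum.inr ()) := by
    intro i
    let S : Matrix (Fin p ⊕ Unit) (Fin p ⊕ Unit) ℂ := Matrix.of fun k l =>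
      if (k = Sum.inl i ∧ l = Sum.inr ()) ∨ (k = Sum.inr () ∧ l = Sum.inl i) then 1 else 0
    have hS : S ∈ su p := by
      rw [mem_su]
      constructor
      · ext k l
        rw [Matrix.add_apply, J, mul_diagonal, diagonal_mul, conjTranspose_apply]
        simp only [S, of_apply, Matrix.zero_apply]
        rcases k with k | k <;> rcases l with l | l
        · simp
        · by_cases hk : k = i <;> simp [hk]
        · by_cases hl : l = i <;> simp [hl]
        · simp
      · unfold Matrix.trace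
        apply Finset.sum_eq_zero
        intro k _
        simp only [S, diag_apply, of_apply]
        rcases k with k | k <;> simp
    have hAd : A = Matrix.diagonal (fun k => A k k) := by
      ext k l
      by_cases hkl : k = l
      · subst hkl
        rw [diagonal_apply_eq]
      · rw [diagonal_apply_ne _ hkl, hoff k l hkl]
    have h1 := congrFun (congrFun (h ⟨_, hS⟩) (Sum.inl i)) (Sum.inr ())
    simp only at h1
    rw [Matrix.sub_apply, hAd, diagonal_mul, mul_diagonal] at h1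
    simp only [S, of_apply, Matrix.zero_apply, true_or, if_true, mul_one, one_mul, and_self] at h1
    exact sub_eq_zero.1 h1
  have htr := (mem_su.1 hA).2
  unfold Matrix.trace at htr
  rw [Fintype.sum_sum_type] at htr
  simp only [diag_apply, hdiag] at htr
  have hrr : A (Sum.inr ()) (Sum.inr ()) = 0 := by
    have h2 : ((p : ℂ) + 1) * A (Sum.inr ()) (Sum.inr ()) = 0 := by
      rw [← htr]
      simp
      ring
    exact (mul_eq_zero.1 h2).resolve_left (by exact_mod_cast Nat.succ_ne_zero p)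
  apply Subtype.ext
  ext k l
  show A k l = 0
  by_cases hkl : k = l
  · subst hkl
    rcases k with k | k
    · rw [hdiag, hrr]
    · exact hrr
  · exact hoff k l hkl

instance (p : ℕ) : FiniteDimensional ℝ (su p) :=
  inferInstanceAs (FiniteDimensional ℝ (su p).toSubmodule)

theorem semisimple (p : ℕ) : LieAlgebra.IsSemisimple ℝ (su p) := by
  refine LieAlgebra.InvariantForm.isSemisimple_of_nondegenerate (Φ p) (Φ_nondeg p) (Φ_inv p)
    (Φ_refl p) ?_
  intro I hI hab
  apply hI.1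
  rw [LieSubmodule.eq_bot_iff]
  intro A hA
  exact center_trivial A fun X => abelian_central I hab A hA X

/-- **Not every element of a real semisimple Lie algebra is a bracket.** For every `p ≥ 2` the Lie
algebra `su(p,1)` is finite-dimensional and semisimple over `ℝ`, and its element
`i diag (1,…,1,-p)` is not of the form `[x,y]`. -/
theorem result : ∀ p : ℕ, 2 ≤ p →
    FiniteDimensional ℝ (su p) ∧ LieAlgebra.IsSemisimple ℝ (su p) ∧
      ∃ z : su p, z.1 = Matrix.diagonal (Sum.elim (fun _ => Complex.I) (fun _ => -(p : ℂ) * Complex.I)) ∧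
        ∀ x y : su p, ⁅x, y⁆ ≠ z := by
  intro p hp
  refine ⟨inferInstance, semisimple p, ⟨Z p, Z_mem p⟩, rfl, ?_⟩
  intro x y hxy
  exact not_bracket p hp x.1 y.1 x.2 (congrArg (fun z : su p => z.1) hxy)

end Pool.Agent.Results.MP_61cc98_al.NotBracket
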